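import Mathlib

set_option autoImplicit false

namespace Pool.Agent.Results.MP_ab03e0_co.Seventeen

def f : Fin 17 → Fin 17 := ![0, 14, 11, 15, 5, 8, 13, 1, 10, 7, 16, 4, 9, 12, 2, 6, 3]

def op (x y : Fin 17) : Fin 17 := x + f (y - x)

theorem hl : ∀ a b, ∃ x, op a x = b ∧ ∀ y, op a y = b → y = x := by decide +kernel

theorem hr : ∀ a b, ∃ x, op x a = b ∧ ∀ y, op y a = b → y = x := by decide +kernel

theorem hid : ∀ x y, op (op x y) y = op x (op x y) := by decide +kernel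

theorem result : ∃ m : Fin 17 → Fin 17 → Fin 17,
    (∀ a b, ∃! x, m a x = b) ∧ (∀ a b, ∃! x, m x a = b) ∧
      ∀ x y, m (m x y) y = m x (m x y) :=
  ⟨op, hl, hr, hid⟩

end Pool.Agent.Results.MP_ab03e0_co.Seventeen
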